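import Pool.Agent.MP_c4d8e2_ag.H71.Defs

/-!
Boundedness modulo a subset and finiteness of pointed maps.
-/

set_option autoImplicit false

namespace Pool.Agent.MP_c69980_ag.H71

open Pool.Agent.MP_c4d8e2_ag.H71

variable {n : ℕ}

/-- For every smooth quasi-projective curve `C`, the morphisms `C → U` with image not in `Δ` have
bounded degree (number of preimages of a hyperplane not containing the image). -/
def BoundedMod (U Δ : Set (PS n)) : Prop :=
  ∀ (m : ℕ) (C : Set (PS m)) (K : Type) [Field K] [Algebra ℂ K]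
    (z : Fin m → K), IsVar C → GenPt C z → Algebra.trdeg ℂ K = 1 →
    (∀ x ∈ C, IsRegularLocalRing (locRing z x)) →
    ∃ d : ℕ, ∀ f : C → PS n, IsMor f → Set.range f ⊆ U → ¬ Set.range f ⊆ Δ →
      ∀ l : Fin n → ℂ, (∃ c, l ⬝ᵥ (f c).rep ≠ 0) → {c | l ⬝ᵥ (f c).rep = 0}.encard ≤ d

end Pool.Agent.MP_c69980_ag.H71
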