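import Pool.Agent.MP_c69980_ag.H71.SpecA
import Pool.Agent.MP_c69980_ag.H71.DefsA

/-!
Bounded affine varieties have finitely many pointed maps: assembly.
-/

set_option autoImplicit false

namespace Pool.Agent.MP_c69980_ag.H71

open MvPolynomial Pool.Agent.MP_c4d8e2_ag.H71

variable {n m : ℕ}

lemma ratio_mk {v : Fin (n + 1) → ℂ} (h : v ≠ 0) (h0 : v 0 = 1) (i : Fin (n + 1)) :
    (Projectivization.mk ℂ v h).rep i = v i * (Projectivization.mk ℂ v h).rep 0 ∧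
      (Projectivization.mk ℂ v h).rep 0 ≠ 0 := by
  obtain ⟨c, hc, h1⟩ := rep_mk v h
  rw [h1]
  simp [h0, hc, mul_comm]

lemma mk_ratio {P : PS (n + 1)} (hP : P.rep 0 ≠ 0) {v : Fin (n + 1) → ℂ} (h : v ≠ 0)
    (hv : ∀ i, v i = P.rep i / P.rep 0) : Projectivization.mk ℂ v h = P := by
  conv_rhs => rw [← P.mk_rep]
  rw [Projectivization.mk_eq_mk_iff']
  exact ⟨(P.rep 0)⁻¹, funext fun i => by simp [hv, div_eq_inv_mul]⟩

/-- two different morphisms differ on a nonempty principal open set -/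
lemma exists_sep {Y : Set (PS m)} {f f' : Y → PS n} (hf : IsMor f) (hf' : IsMor f')
    (hne : f ≠ f') : ∃ (g : MvPolynomial (Fin m) ℂ) (e : ℕ), g.IsHomogeneous e ∧
      (∃ P ∈ Y, eval P.rep g ≠ 0) ∧ ∀ Q : Y, eval Q.1.rep g ≠ 0 → f Q ≠ f' Q := by
  obtain ⟨P, hP⟩ := Function.ne_iff.1 hne
  obtain ⟨d, e, γ, F, hγ, hF, h1, h2⟩ := hf P
  obtain ⟨d', e', γ', F', hγ', hF', h1', h2'⟩ := hf' P
  have : ∃ i j, eval P.1.rep (F i * F' j - F j * F' i) ≠ 0 := by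
    by_contra hn
    push Not at hn
    obtain ⟨a, ha⟩ := h2 P h1
    obtain ⟨a', ha'⟩ := h2' P h1'
    obtain ⟨j, hj⟩ := Function.ne_iff.1 a'
    refine hP ?_
    rw [ha, ha', Projectivization.mk_eq_mk_iff']
    refine ⟨eval P.1.rep (F j) / eval P.1.rep (F' j), funext fun i => ?_⟩
    have := hn i j
    simp only [map_sub, map_mul] at this
    simp only [Pi.smul_apply, smul_eq_mul]
    rw [div_mul_eq_mul_div, div_eq_iff hj]
    linear_combination -this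
  obtain ⟨i, j, hij⟩ := this
  refine ⟨γ * γ' * (F i * F' j - F j * F' i), _,
    (hγ.mul hγ').mul (((hF i).mul (hF' j)).sub ((hF j).mul (hF' i))),
    ⟨P, P.2, by rw [map_mul, map_mul]; exact mul_ne_zero (mul_ne_zero h1 h1') hij⟩,
    fun Q hQ he => ?_⟩
  rw [map_mul, map_mul] at hQ
  obtain ⟨a, ha⟩ := h2 Q (left_ne_zero_of_mul (left_ne_zero_of_mul hQ))
  obtain ⟨a', ha'⟩ := h2' Q (right_ne_zero_of_mul (left_ne_zero_of_mul hQ))
  rw [ha, ha', Projectivization.mk_eq_mk_iff'] at he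
  obtain ⟨c, hc⟩ := he
  refine right_ne_zero_of_mul hQ ?_
  have e1 := congrFun hc i
  have e2 := congrFun hc j
  simp only [Pi.smul_apply, smul_eq_mul] at e1 e2
  simp only [map_sub, map_mul, ← e1, ← e2]
  ring

/-- boundedness read on the coordinate ring of a smooth affine curve -/
lemma fibre_le (hM : ModelStmt) {U Δ : Set (PS (n + 1))} (hb : BoundedMod U Δ) {x : PS (n + 1)}
    (hx : x ∉ Δ) (B : Type) [CommRing B] [Algebra ℂ B] (t : B) (hB : AC B t) :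
    ∃ d : ℕ, ∀ (u : Fin (n + 1) → B) (_ : u 0 = 1) (h : ∀ χ : B →ₐ[ℂ] ℂ, (fun i => χ (u i)) ≠ 0),
      (∀ χ, Projectivization.mk ℂ _ (h χ) ∈ U) → (∃ χ, Projectivization.mk ℂ _ (h χ) = x) →
      ∀ i a, u i ≠ algebraMap ℂ B a → {χ : B →ₐ[ℂ] ℂ | χ (u i) = a}.encard ≤ d := by
  classical
  obtain ⟨h0, N, C, K, _, _, s, pt, hC, hs, htr, hreg, hmor, -⟩ := hM B t hB
  obtain ⟨d, hd⟩ := hb N C K s hC hs htr hreg
  refine ⟨d, fun u hu h hU ⟨χ₀, hχ₀⟩ i a ha => ?_⟩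
  have key : ∀ χ : B →ₐ[ℂ] ℂ, (Pi.single i 1 - Pi.single 0 a : Fin (n + 1) → ℂ) ⬝ᵥ
      (Projectivization.mk ℂ _ (h χ)).rep = 0 ↔ χ (u i) = a := fun χ => by
    obtain ⟨e1, e2⟩ := ratio_mk (h χ) (by simp [hu]) i
    rw [sub_dotProduct, single_dotProduct, single_dotProduct, one_mul, e1, ← sub_mul,
      mul_eq_zero, sub_eq_zero, or_iff_left e2]
  have h1 := hd _ (hmor _ u h) (by rintro _ ⟨P, rfl⟩; exact hU _)
    (fun h' => hx (h' ⟨pt χ₀, by simpa using hχ₀⟩)) (Pi.single i 1 - Pi.single 0 a) (by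
      obtain ⟨χ, hχ⟩ := h0 _ (sub_ne_zero.2 ha)
      refine ⟨pt χ, fun h' => hχ ?_⟩
      rw [key, Equiv.symm_apply_apply] at h'
      simp [h'])
  rw [← pt.symm.injective.encard_image] at h1
  refine (Set.encard_le_encard fun χ hχ => ?_).trans h1
  exact ⟨pt χ, (key _).2 (by simpa using hχ), by simp⟩

lemma ac_poly : AC (Polynomial ℂ) Polynomial.X :=
  ⟨inferInstance, inferInstance, Polynomial.transcendental_X ℂ, by
    rw [Polynomial.aeval_X_left]; exact AlgHom.Finite.id ℂ _⟩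

/-- a bounded variety has no affine line through a point off `Δ` -/
lemma no_line (hM : ModelStmt) {U Δ : Set (PS (n + 1))} (hb : BoundedMod U Δ) {x : PS (n + 1)}
    (hx : x ∉ Δ) (p : Fin (n + 1) → Polynomial ℂ) (h0 : p 0 = 1)
    (h : ∀ τ : ℂ, (fun i => (p i).eval τ) ≠ 0) (hU : ∀ τ, Projectivization.mk ℂ _ (h τ) ∈ U)
    (hx0 : Projectivization.mk ℂ _ (h 0) = x) (i : Fin (n + 1)) : (p i).natDegree = 0 := by
  by_contra hi
  obtain ⟨d, hd⟩ := fibre_le hM hb hx _ _ ac_poly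
  have ev : ∀ (χ : Polynomial ℂ →ₐ[ℂ] ℂ) (q : Polynomial ℂ),
      χ (q.comp (Polynomial.X ^ (d + 1))) = q.eval (χ Polynomial.X ^ (d + 1)) := fun χ q => by
    rw [Polynomial.comp_eq_aeval, ← Polynomial.aeval_algHom_apply, map_pow,
      Polynomial.coe_aeval_eq_eval]
  have h' : ∀ χ : Polynomial ℂ →ₐ[ℂ] ℂ,
      (fun i => χ ((p i).comp (Polynomial.X ^ (d + 1)))) ≠ 0 := fun χ => by
    simpa only [ev] using h _
  have h1 := hd (fun i => (p i).comp (Polynomial.X ^ (d + 1))) (by simp [h0]) h'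
    (fun χ => by simpa only [ev] using hU _)
    ⟨Polynomial.aeval 0, by simpa [ev] using hx0⟩ i ((p i).eval 1) (fun e => by
      have := congrArg Polynomial.natDegree e
      rw [Polynomial.natDegree_comp, Polynomial.natDegree_X_pow] at this
      simp [hi] at this)
  have hζ := Complex.isPrimitiveRoot_exp (d + 1) d.succ_ne_zero
  set ζ := Complex.exp _
  have h2 : (fun k : ℕ => (Polynomial.aeval (ζ ^ k) : Polynomial ℂ →ₐ[ℂ] ℂ)) ''
      (Finset.range (d + 1) : Set ℕ) ⊆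
      {χ | χ ((p i).comp (Polynomial.X ^ (d + 1))) = (p i).eval 1} := by
    rintro _ ⟨k, -, rfl⟩
    rw [Set.mem_ofPred_eq, ev, Polynomial.aeval_X, ← pow_mul, mul_comm, pow_mul, hζ.pow_eq_one,
      one_pow]
  have h3 := (Set.encard_le_encard h2).trans h1
  rw [Set.InjOn.encard_image fun j hj k hk e => hζ.pow_inj (by simpa using hj) (by simpa using hk)
    (by simpa using DFunLike.congr_fun e Polynomial.X), Set.encard_coe_eq_coe_finsetCard,
    Finset.card_range] at h3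
  exact absurd (Nat.cast_le.1 h3) (by omega)

theorem affine_finite (hT : ThroughStmt) (hM : ModelStmt) (hBd : BoundStmt) (hBu : BubbleStmt)
    {X U Δ : Set (PS (n + 1))} (hX : IsZClosed X) (hU : U = {P ∈ X | P.rep 0 ≠ 0})
    (hb : BoundedMod U Δ) {Y : Set (PS m)} (hY : IsVar Y) (y : Y) {x : PS (n + 1)} (hx : x ∉ Δ) :
    {f : Y → PS (n + 1) | IsMor f ∧ Set.range f ⊆ U ∧ f y = x}.Finite := by
  by_contra hinf
  let f := Set.Infinite.natEmbedding _ hinf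
  have hnt : Y.Nontrivial := by
    by_contra hs
    rw [Set.not_nontrivial_iff] at hs
    refine hinf (Set.Subsingleton.finite fun g hg g' hg' => funext fun P => ?_)
    rw [show P = y from Subtype.ext (hs P.2 y.2), hg.2.2, hg'.2.2]
  have hsep : ∀ k : ℕ, ∃ (g : MvPolynomial (Fin m) ℂ) (e : ℕ), g.IsHomogeneous e ∧
      (∃ P ∈ Y, eval P.rep g ≠ 0) ∧ ∀ Q : Y, eval Q.1.rep g ≠ 0 → k.unpair.1 ≠ k.unpair.2 →
        (f k.unpair.1).1 Q ≠ (f k.unpair.2).1 Q := fun k => by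
    by_cases hk : k.unpair.1 = k.unpair.2
    · exact ⟨1, 0, isHomogeneous_one _ _, ⟨y, y.2, by simp⟩, fun _ _ h => (h hk).elim⟩
    · obtain ⟨g, e, h1, h2, h3⟩ := exists_sep (f _).2.1 (f _).2.1
        fun h => hk (f.injective (Subtype.ext h))
      exact ⟨g, e, h1, h2, fun Q hQ _ => h3 Q hQ⟩
  choose g e hg hg0 hgs using hsep
  obtain ⟨B, _, _, t, b, χ₀, h, hB, hbY, hby, hbg⟩ := hT m Y hY hnt y y.2 g e hg hg0
  obtain ⟨d, hd⟩ := fibre_le hM hb hx B t hB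
  obtain ⟨V, hV, hV'⟩ := hBd B t hB d
  obtain ⟨h0, N, C, K, _, _, s, pt, -, -, -, -, hmor, hfun⟩ := hM B t hB
  let ι : (B →ₐ[ℂ] ℂ) → Y := fun χ => ⟨_, hbY χ⟩
  have hfU : ∀ k Q, (f k).1 Q ∈ X ∧ ((f k).1 Q).rep 0 ≠ 0 := fun k Q =>
    hU.le ((f k).2.2.1 ⟨Q, rfl⟩)
  have hu : ∀ k, ∃ u : Fin (n + 1) → B, ∀ (χ : B →ₐ[ℂ] ℂ) (i : Fin (n + 1)),
      χ (u i) = ((f k).1 (ι χ)).rep i / ((f k).1 (ι χ)).rep 0 := fun k => by
    simpa using hfun n (fun P => (f k).1 (ι (pt.symm P))) ((f k).2.1.comp (hmor m b h))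
      fun P => (hfU k _).2
  choose u hu using hu
  have hz : ∀ w : B, (∀ χ : B →ₐ[ℂ] ℂ, χ w = 0) → w = 0 := fun w hw =>
    by_contra fun hne => let ⟨χ, hχ⟩ := h0 w hne; hχ (hw χ)
  have hu0 : ∀ k, u k 0 = 1 := fun k => sub_eq_zero.1 (hz _ fun χ => by
    rw [map_sub, hu, div_self (hfU k _).2, map_one, sub_self])
  have hun : ∀ k (χ : B →ₐ[ℂ] ℂ), (fun i => χ (u k i)) ≠ 0 := fun k χ h' => by
    simpa [hu0] using congrFun h' 0
  have hum : ∀ k χ, Projectivization.mk ℂ _ (hun k χ) = (f k).1 (ι χ) := fun k χ =>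
    mk_ratio (hfU k _).2 _ (hu k χ)
  have hx0 : ∀ k, (f k).1 (ι χ₀) = x := fun k => by
    rw [show ι χ₀ = y from Subtype.ext hby, (f k).2.2.2]
  have ev : ∀ {r : ℕ} (χ : B →ₐ[ℂ] ℂ) (w : Fin r → B) (G : MvPolynomial (Fin r) ℂ),
      χ (aeval w G) = eval (fun i => χ (w i)) G := fun χ w G => by
    rw [comp_aeval_apply, aeval_eq_eval]
  have hinj : Function.Injective u := fun j k hjk => by
    by_contra hne
    obtain ⟨χ, hχ⟩ := h0 _ (hbg (Nat.pair j k))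
    rw [ev, Ne, ← eval_rep_mk (hg _) _ (h χ)] at hχ
    have := hgs (Nat.pair j k) (ι χ) hχ
    simp only [Nat.unpair_pair] at this
    refine this hne ?_
    rw [← hum, ← hum]
    simp only [hjk]
  let T : Set (MvPolynomial (Fin (n + 1)) ℂ) :=
    {G | ∀ P ∈ U, eval (fun i => P.rep i / P.rep 0) G = 0}
  obtain ⟨p, hp, hp0, i, hi⟩ := hBu B t hB χ₀ V hV (n + 1) T (fun i => x.rep i / x.rep 0)
    (Set.infinite_of_injective_forall_mem hinj fun k => ⟨fun i => hV' _ (hd (u k) (hu0 k) (hun k)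
      (fun χ => hum k χ ▸ (f k).2.2.1 ⟨_, rfl⟩) ⟨χ₀, (hum k χ₀).trans (hx0 k)⟩ i),
      fun G hG => hz _ fun χ => by
        rw [ev]; simp only [hu]; exact hG _ ((f k).2.2.1 ⟨_, rfl⟩),
      fun i => by rw [hu, hx0]⟩)
  have hp1 : p 0 = 1 := by
    have := hp (MvPolynomial.X 0 - 1) fun P hP => by
      rw [hU] at hP
      simp [div_self hP.2]
    simpa [sub_eq_zero] using this
  have hpn : ∀ τ : ℂ, (fun i => (p i).eval τ) ≠ 0 := fun τ h' => by
    simpa [hp1] using congrFun h' 0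
  refine hi.ne' (no_line hM hb hx p hp1 hpn (fun τ => ?_)
    (mk_ratio (hx0 0 ▸ (hfU 0 _).2) _ hp0) i)
  rw [hU]
  refine ⟨?_, (ratio_mk (hpn τ) (by simp [hp1]) 0).2⟩
  obtain ⟨S, hS, rfl⟩ := hX
  intro F hF
  obtain ⟨r, hr⟩ := hS F hF
  have h1 := hp F fun P hP => by
    rw [hU] at hP
    have := eval_smul_hom hr (P.rep 0)⁻¹ P.rep
    rw [hP.1 F hF, mul_zero] at this
    simp only [div_eq_inv_mul]
    exact this
  have h2 := congrArg (Polynomial.aeval τ : Polynomial ℂ →ₐ[ℂ] ℂ) h1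
  rw [comp_aeval_apply, map_zero, aeval_eq_eval] at h2
  rw [eval_rep_mk hr]
  simpa [Polynomial.coe_aeval_eq_eval] using h2

end Pool.Agent.MP_c69980_ag.H71
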