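import Pool.Agent.MP_c4d8e2_ag.H71.Defs

/-!
Holomorphic maps to projective space, the Kobayashi pseudodistance and the conditions of the
extended Lang-Vojta conjecture.
-/

set_option autoImplicit false

namespace Pool.Agent.MP_c69980_ag.H71

open Pool.Agent.MP_c4d8e2_ag.H71 Filter Topology

variable {n : ℕ}

/-- `f` is holomorphic on `Ω`: it has nonvanishing analytic local lifts. -/
def Holo (Ω : Set ℂ) (f : ℂ → PS n) : Prop :=
  ∀ t ∈ Ω, ∃ g : ℂ → Fin n → ℂ, AnalyticAt ℂ g t ∧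
    ∀ᶠ s in 𝓝 t, ∃ h : g s ≠ 0, f s = Projectivization.mk ℂ (g s) h

/-- The Kobayashi pseudodistance: the infimum of the Poincare lengths of chains of discs. -/
noncomputable def kob (U : Set (PS n)) (p q : PS n) : ENNReal :=
  sInf {s | ∃ (r : ℕ) (x : ℕ → PS n) (f : ℕ → ℂ → PS n) (a : ℕ → ℂ), x 0 = p ∧ x r = q ∧
    (∀ i < r, Holo (Metric.ball 0 1) (f i) ∧ Set.MapsTo (f i) (Metric.ball 0 1) U ∧ ‖a i‖ < 1 ∧
      f i 0 = x i ∧ f i (a i) = x (i + 1)) ∧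
    s = ∑ i ∈ Finset.range r, ENNReal.ofReal (Real.artanh ‖a i‖)}

/-- Condition 1: pseudo-Kobayashi hyperbolic. -/
def C1 (U : Set (PS n)) : Prop :=
  ∃ Δ, IsZClosed Δ ∧ ¬ U ⊆ Δ ∧ ∀ p ∈ U, ∀ q ∈ U, p ≠ q → ¬ (p ∈ Δ ∧ q ∈ Δ) → 0 < kob U p q

/-- Condition 2: entire curves lie in a proper closed subset. -/
def C2 (U : Set (PS n)) : Prop :=
  ∃ Δ, IsZClosed Δ ∧ ¬ U ⊆ Δ ∧ ∀ f : ℂ → PS n, Holo Set.univ f → Set.range f ⊆ U →
    (∃ s t, f s ≠ f t) → Set.range f ⊆ Δ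

/-- Condition 3: finitely many pointed morphisms (from quasi-projective varieties). -/
def C3 (U : Set (PS n)) : Prop :=
  ∃ Δ, IsZClosed Δ ∧ ¬ U ⊆ Δ ∧ ∀ (m : ℕ) (Y : Set (PS m)), IsVar Y → ∀ y : Y, ∀ x ∈ U \ Δ,
    {f : Y → PS n | IsMor f ∧ Set.range f ⊆ U ∧ f y = x}.Finite

/-- Condition 4: log-general type. `W` is a smooth projective variety with the function field of
`U`, and `π` is the birational morphism from `W` to the closure of `U` (the local ring at `x`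
dominates the one at `π x`). The boundary `{x | π x ∉ U}` has simple normal crossings: near `x` it
is the zero set of `s = ∏ i ∈ r, t i` for a regular system of parameters `t`. The `h i` are
sections of `m (K_W + boundary)` with `h i / h 0` algebraically independent. -/
def C4 (U : Set (PS n)) : Prop :=
  ∃ (K : Type) (_ : Field K) (_ : Algebra ℂ K) (z : Fin n → K) (n' : ℕ) (W : Set (PS n'))
    (z' : Fin n' → K) (π : PS n' → PS n) (k m : ℕ) (D : Fin k → Derivation ℂ K K)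
    (h : Fin (k + 1) → K),
    GenPt U z ∧ IsZClosed W ∧ GenPt W z' ∧ Algebra.trdeg ℂ K = k ∧ LinearIndependent K D ∧
    0 < m ∧ h 0 ≠ 0 ∧ (AlgebraicIndependent ℂ fun i : Fin k => h i.succ / h 0) ∧
    ∀ x ∈ W, IsRegularLocalRing (locRing z' x) ∧ π x ∈ zcl U ∧
      (∀ u ∈ locRing z (π x), u ∈ locRing z' x ∧ (u⁻¹ ∈ locRing z' x → u⁻¹ ∈ locRing z (π x))) ∧
      ∃ (t : Fin k → locRing z' x) (r : Finset (Fin k)) (g : MvPolynomial (Fin n') ℂ) (d : ℕ),
        (Ideal.span (Set.range t)).IsMaximal ∧ (∀ i, t i ≠ 0) ∧ g.IsHomogeneous d ∧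
        MvPolynomial.eval x.rep g ≠ 0 ∧
        (∀ y ∈ W, MvPolynomial.eval y.rep g ≠ 0 → (∀ i, (t i : K) ∈ locRing z' y) ∧
          (π y ∈ U ↔ (∏ i ∈ r, (t i : K))⁻¹ ∈ locRing z' y)) ∧
        ∀ i, (∏ j ∈ r, (t j : K)) ^ m * h i ∈ pluri z' D m x

/-- Condition 5: for every smooth quasi-projective curve `C`, the morphisms `C → U` with image not
in `Δ` have bounded degree (number of preimages of a hyperplane not containing the image). -/
def C5 (U : Set (PS n)) : Prop :=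
  ∃ Δ, IsZClosed Δ ∧ ¬ U ⊆ Δ ∧ ∀ (m : ℕ) (C : Set (PS m)) (K : Type) [Field K] [Algebra ℂ K]
    (z : Fin m → K), IsVar C → GenPt C z → Algebra.trdeg ℂ K = 1 →
    (∀ x ∈ C, IsRegularLocalRing (locRing z x)) →
    ∃ d : ℕ, ∀ f : C → PS n, IsMor f → Set.range f ⊆ U → ¬ Set.range f ⊆ Δ →
      ∀ l : Fin n → ℂ, (∃ c, l ⬝ᵥ (f c).rep ≠ 0) → {c | l ⬝ᵥ (f c).rep = 0}.encard ≤ d

end Pool.Agent.MP_c69980_ag.H71
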