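import Pool.Agent.MP_c4d8e2_ag.H71.Basic

/-!
Interface statements for: bounded affine varieties have finitely many pointed maps.
-/

set_option autoImplicit false

namespace Pool.Agent.MP_c69980_ag.H71

open MvPolynomial Pool.Agent.MP_c4d8e2_ag.H71

/-- `B` is the coordinate ring of a smooth affine curve, finite over the line by `t`. -/
structure AC (B : Type) [CommRing B] [Algebra ℂ B] (t : B) : Prop where
  dom : IsDomain B
  nor : IsIntegrallyClosed B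
  tr : Transcendental ℂ t
  fin : (Polynomial.aeval t : Polynomial ℂ →ₐ[ℂ] B).Finite

/-- A smooth affine curve through a given point of a variety that lies in none of countably many
hypersurfaces. -/
def ThroughStmt : Prop :=
  ∀ (m : ℕ) (Y : Set (PS m)), IsVar Y → Y.Nontrivial → ∀ y ∈ Y,
    ∀ (g : ℕ → MvPolynomial (Fin m) ℂ) (e : ℕ → ℕ), (∀ k, (g k).IsHomogeneous (e k)) →
    (∀ k, ∃ P ∈ Y, eval P.rep (g k) ≠ 0) →
    ∃ (B : Type) (_ : CommRing B) (_ : Algebra ℂ B) (t : B) (b : Fin m → B) (χ₀ : B →ₐ[ℂ] ℂ)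
      (h : ∀ χ : B →ₐ[ℂ] ℂ, (fun i => χ (b i)) ≠ 0), AC B t ∧
      (∀ χ : B →ₐ[ℂ] ℂ, Projectivization.mk ℂ _ (h χ) ∈ Y) ∧
      Projectivization.mk ℂ _ (h χ₀) = y ∧ ∀ k, aeval b (g k) ≠ 0

/-- The curve as a subset of projective space; morphisms and tuples of regular functions. -/
def ModelStmt : Prop :=
  ∀ (B : Type) [CommRing B] [Algebra ℂ B] (t : B), AC B t →
    (∀ u : B, u ≠ 0 → ∃ χ : B →ₐ[ℂ] ℂ, χ u ≠ 0) ∧
    ∃ (N : ℕ) (C : Set (PS N)) (K : Type) (_ : Field K) (_ : Algebra ℂ K) (s : Fin N → K)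
      (pt : (B →ₐ[ℂ] ℂ) ≃ C), IsVar C ∧ GenPt C s ∧ Algebra.trdeg ℂ K = 1 ∧
      (∀ x ∈ C, IsRegularLocalRing (locRing s x)) ∧
      (∀ (m : ℕ) (b : Fin m → B) (h : ∀ χ : B →ₐ[ℂ] ℂ, (fun i => χ (b i)) ≠ 0),
        IsMor fun P : C => Projectivization.mk ℂ _ (h (pt.symm P))) ∧
      ∀ (n : ℕ) (f : C → PS (n + 1)), IsMor f → (∀ P, (f P).rep 0 ≠ 0) →
        ∃ u : Fin (n + 1) → B, ∀ (χ : B →ₐ[ℂ] ℂ) (i : Fin (n + 1)),
          χ (u i) = (f (pt χ)).rep i / (f (pt χ)).rep 0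

/-- Regular functions with small fibres lie in a finite-dimensional space. -/
def BoundStmt : Prop :=
  ∀ (B : Type) [CommRing B] [Algebra ℂ B] (t : B), AC B t → ∀ d : ℕ,
    ∃ V : Submodule ℂ B, Module.Finite ℂ V ∧ ∀ u : B,
      (∀ a : ℂ, u ≠ algebraMap ℂ B a → {χ : B →ₐ[ℂ] ℂ | χ u = a}.encard ≤ d) → u ∈ V

/-- Infinitely many pointed maps of bounded degree to an affine variety give an affine line
through the point. -/
def BubbleStmt : Prop :=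
  ∀ (B : Type) [CommRing B] [Algebra ℂ B] (t : B), AC B t → ∀ (χ₀ : B →ₐ[ℂ] ℂ)
    (V : Submodule ℂ B), Module.Finite ℂ V → ∀ (n : ℕ) (T : Set (MvPolynomial (Fin n) ℂ))
    (x : Fin n → ℂ),
    {u : Fin n → B | (∀ i, u i ∈ V) ∧ (∀ G ∈ T, aeval u G = 0) ∧ ∀ i, χ₀ (u i) = x i}.Infinite →
    ∃ p : Fin n → Polynomial ℂ, (∀ G ∈ T, aeval p G = 0) ∧ (∀ i, (p i).eval 0 = x i) ∧
      ∃ i, 0 < (p i).natDegree

end Pool.Agent.MP_c69980_ag.H71
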